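import Pool.Agent.Lib.MP_a9445a_lc.SX.V7
import Pool.Agent.Lib.MP_a9445a_lc.GD.Lang2

/-!
# Exact bisection of all graphs in time `2 ^ ((ω / 3 - δ) n)`, for every value of `ω`

There is one program `e` (of the functional language of `GD/Lang.lean`; meaning `Ex.run` and logarithmic cost `Ex.time` in
`GD/Lang2.lean`) with the input: number `n` of vertices, adjacency array of a graph `G`, array `ρ` of `(n + 2) ^ K` random
bits, and constants `C` and `δ > 0`, such that
* for every `τ ≥ 2`, every `n`, every graph and every array of bits the running time is at most
  `C * 2 ^ ((τ / 3 - δ) n)`, where the product of two `k × k` matrices is charged `k ^ τ`; hence for every value of the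
  exponent `ω ≥ 2` of the matrix product, also if it is not attained, the time is `O (2 ^ (c n))` with `c < ω / 3`;
* for every even `n` all but a fraction `2 ^ (- n ^ 2)` of the arrays `ρ` are such that for every graph with `n` vertices
  the output is a minimum bisection; in particular there is such an array.

Idea: minimum bisections are the maxima of an even quadratic form `f` on the cube. For a set `D` of vertices and the
vector `x ^ D` with flipped signs on `D`, `f x + f (x ^ D) = 2 (f_D (x) + f_{D^c} (x))`. If `y` is a point of value `t` and
`D` is the set of places at which the maximum `x` differs from `y`, then the restrictions of `x` to `D` and to `D^c` are in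
lists of vectors whose values have the sum `(f x + t) / 2`. The lists are found recursively for random sets `D` (two
levels; the leaves are the lists of the algorithm without error of exponent `0.6943`), the costs are controlled by tilted
counts of the level sets. The sets `D` are taken from a random linear code, such that the lists of all small blocks of the
code fit into a table. If `x` differs from almost all points of the level `t` at too few or too many places then, on the
lower levels, the larger block is treated by the enumeration of the vectors of small score (scores computed from the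
frequencies of the entries of the points of the level) and, on the top level, `x` or `-x` is found in a ball around a
sample: the vectors of one third of the vertices are restricted to a ball, so the matrices are smaller (`BW`). The total
time without the ball is `poly * 2 ^ (0.6665 n)`.
-/

set_option autoImplicit false

open Finset

namespace Pool.Agent.Results.MP_a9445a_lc.BelowOmegaThird

open Pool.Agent.MPa9445a.GD
open Pool.Agent.MPa9445a.BE (nth arrG IsMinBisection)
open Pool.Agent.MPa9445a.SN (rb)

open scoped Classical in
/-- One program with `(n + 2) ^ K` random bits, whose running time is at most `C * 2 ^ ((τ / 3 - δ) n)` for every `τ ≥ 2`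
(product of `k × k` matrices: `k ^ τ`), every graph and all random bits, and which outputs for all but a fraction
`2 ^ (- n ^ 2)` of the arrays of random bits a minimum bisection of every graph with `n` vertices. -/
theorem result :
    ∃ (e : Ex [.int, .arr, .arr] .arr) (K : ℕ) (C δ : ℝ), 0 < δ ∧
      (∀ τ : ℝ, 2 ≤ τ → ∀ (n : ℕ) (G : SimpleGraph (Fin n)) (ρ : Fin ((n + 2) ^ K) → Bool),
        e.time τ ((n : ℤ), arrG G, rb ρ, ()) ≤ C * 2 ^ ((τ / 3 - δ) * n)) ∧
      (∀ n : ℕ, Even n → (univ.filter fun ρ : Fin ((n + 2) ^ K) → Bool =>
        ¬ ∀ G : SimpleGraph (Fin n), IsMinBisection G (univ.filter fun v : Fin n =>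
          nth (e.run ((n : ℤ), arrG G, rb ρ, ())) (v : ℕ) = 1)).card * 2 ^ n ^ 2 ≤
            2 ^ (n + 2) ^ K) ∧
      ∀ n : ℕ, Even n → ∃ ρ : Fin ((n + 2) ^ K) → Bool, ∀ G : SimpleGraph (Fin n),
        IsMinBisection G (univ.filter fun v : Fin n =>
          nth (e.run ((n : ℤ), arrG G, rb ρ, ())) (v : ℕ) = 1) := by
  obtain ⟨e, K, C, δ, hδ, h1, h2⟩ := Pool.Agent.MPa9445a.SX.main_thm23
  have h3 : ∀ n : ℕ, Even n → (univ.filter fun ρ : Fin ((n + 2) ^ K) → Bool =>
        ¬ ∀ G : SimpleGraph (Fin n), IsMinBisection G (univ.filter fun v : Fin n =>
          nth (e.run ((n : ℤ), arrG G, rb ρ, ())) (v : ℕ) = 1)).card * 2 ^ n ^ 2 ≤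
            2 ^ (n + 2) ^ K := by
    intro n hn
    simp only [Ex.run_eq]
    exact h2 n hn
  refine ⟨e, K, C, δ, hδ, fun τ hτ n G ρ => ?_, h3, fun n hn => ?_⟩
  · rw [Ex.time_eq]
    exact h1 n G ρ τ hτ
  · rcases Nat.eq_zero_or_pos n with h0 | h0
    · subst h0
      refine ⟨fun _ => true, fun G => ⟨?_, fun Y _ => ?_⟩⟩
      · rw [Subsingleton.elim (univ.filter fun v : Fin 0 => _) (∅ : Finset (Fin 0))]
        rfl
      · rw [Subsingleton.elim (univ.filter fun v : Fin 0 => _) Y]
    · by_contra hne
      push Not at hne
      have h5 := h3 n hn
      have h6 : (univ.filter fun ρ : Fin ((n + 2) ^ K) → Bool =>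
          ¬ ∀ G : SimpleGraph (Fin n), IsMinBisection G (univ.filter fun v : Fin n =>
            nth (e.run ((n : ℤ), arrG G, rb ρ, ())) (v : ℕ) = 1)) = univ := by
        refine Finset.filter_true_of_mem fun ρ _ => ?_
        push Not
        exact hne ρ
      rw [h6, Finset.card_univ, Fintype.card_fun, Fintype.card_bool, Fintype.card_fin] at h5
      have h7 : 2 ≤ 2 ^ (n ^ 2) := by
        calc 2 = 2 ^ 1 := rfl
          _ ≤ 2 ^ (n ^ 2) :=
            Nat.pow_le_pow_right (by norm_num) (Nat.one_le_iff_ne_zero.2 (by positivity))
      have h8 : 0 < 2 ^ (n + 2) ^ K := by positivity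
      nlinarith

end Pool.Agent.Results.MP_a9445a_lc.BelowOmegaThird
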