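import Pool.Agent.Lib.MP_a9445a_lc.DB.Fin
import Pool.Agent.Lib.MP_a9445a_lc.GD.Lang2

/-!
# A deterministic exact algorithm for bisection below `2 ^ (ω n / 3)`

There is one program `e` (of the functional language of `GD/Lang.lean`; meaning `Ex.run` and logarithmic cost `Ex.time` in
`GD/Lang2.lean`) without random bits, whose only inputs are the number `n` of vertices and the adjacency array of a graph
`G`, and constants `C` and `δ > 0`, such that
* for every `τ ≥ 2.362`, every `n` and every graph the running time is at most `C * 2 ^ ((τ / 3 - δ) n)`, where the product
  of two `k × k` matrices is charged `k ^ τ`; hence for every value `ω ≥ 2.362` of the exponent of the matrix product (and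
  for every method of multiplication that is known today) bisection is solved in time `O (2 ^ (c n))` with `c < ω / 3`;
* for every even `n` the output is a minimum bisection of `G`, for every graph `G` with `n` vertices.

Idea: minimum bisections are the maxima of an even quadratic form `f` on the cube. For a set `D` of vertices and the
vector `x ^ D` with flipped signs on `D`, `f x + f (x ^ D) = 2 (f_D (x) + f_{D^c} (x))`. All values of `f` on a set `J` of
somewhat more than `.787 n` vertices are tabulated. The partners of the vectors are searched in the levels of this table:
if the maximum `x` differs from points of the level at a set `D` of medium size of a region of `J`, then the vectors of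
high value of `f_D` are listed by a matrix product and `D` runs through the words of an explicit code of small rank and
small covering radius, which is found by the method of conditional expectations; all correction shifts are tabulated. If the
level has no point at medium distance from `x` or `-x`, then all its points are close to `x` or `-x`, the vectors on one
third of the vertices are restricted to a ball and the matrices of Williams' algorithm are smaller (`BW`).
-/

set_option autoImplicit false

open Finset

namespace Pool.Agent.Results.MP_a9445a_lc.DeterministicBisection

open Pool.Agent.MPa9445a.GD
open Pool.Agent.MPa9445a.BE (nth arrG IsMinBisection)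

open scoped Classical in
/-- One program without random bits, whose running time is at most `C * 2 ^ ((τ / 3 - δ) n)` for every `τ ≥ 2.362`
(product of `k × k` matrices: `k ^ τ`) and every graph, and which outputs a minimum bisection of every graph with an even
number `n` of vertices. -/
theorem result :
    ∃ (e : Ex [.int, .arr] .arr) (C δ : ℝ), 0 < δ ∧
      (∀ τ : ℝ, 2.362 ≤ τ → ∀ (n : ℕ) (G : SimpleGraph (Fin n)),
        e.time τ ((n : ℤ), arrG G, ()) ≤ C * 2 ^ ((τ / 3 - δ) * n)) ∧
      ∀ n : ℕ, Even n → ∀ G : SimpleGraph (Fin n),
        IsMinBisection G (univ.filter fun v : Fin n =>
          nth (e.run ((n : ℤ), arrG G, ())) (v : ℕ) = 1) := by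
  obtain ⟨e, C, δ, hδ, h1, h2⟩ := Pool.Agent.MPa9445a.DB.main_thm
  refine ⟨e, C, δ, hδ, fun τ hτ n G => ?_, fun n hn G => ?_⟩
  · rw [Ex.time_eq]
    exact h1 n G τ hτ
  · rw [Ex.run_eq]
    exact h2 n hn G

end Pool.Agent.Results.MP_a9445a_lc.DeterministicBisection
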