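import Pool.Agent.Lib.MP_a9445a_lc.GL.Fin
import Pool.Agent.Lib.MP_a9445a_lc.GD.Lang2

/-!
# Exact bisection of all graphs, without error, in expected time `O ((φ + ε) ^ n)`

For every `ε > 0` there is one program `e` (of the functional language of `GD/Lang.lean`; meaning `Ex.run` and logarithmic
cost `Ex.time` in `GD/Lang2.lean`) with the input: number `n` of vertices, adjacency array of a graph `G`, array `ρ` of
`(n + 2) ^ K` random bits, such that
* for every even `n`, every graph and every array of bits the output is a minimum bisection of the graph (no error);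
* for every graph the average of the running time over all arrays of bits is at most `C * (φ + ε) ^ n`, where
  `φ = (1 + √5) / 2` is the golden ratio, `log₂ φ = 0.6942...`;
* all but a fraction `2 ^ (- n ^ 2)` of the arrays `ρ` are such that on every graph with `n` vertices the running time
  is at most `C * (φ + ε) ^ n`; in particular, for `n ≥ 1`, one such array exists.

The algorithm does not use the matrix product: the time bounds hold for every charge `k ^ τ`, `τ ≥ 2`, with the same
constant.

Idea: for an even quadratic form `f` on the cube, a set `D` and the vector `x ^ D` with flipped signs on `D`,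
`f x + f (x ^ D) = 2 (f_D (x) + f_{D^c} (x))`. The level sets of `f` on the faces of the cube are found by recursion on
`D`, `D^c` of random sets `D`; the depth of the recursion and the sizes of the lists are controlled by the numbers of
points of the level sets (tilt argument); that nothing was missed is certified by a covering of the cube by random
subspaces.
-/

set_option autoImplicit false

open Finset

namespace Pool.Agent.Results.MP_a9445a_lc.GoldenLasVegas

open Pool.Agent.MPa9445a.GD
open Pool.Agent.MPa9445a.BE (nth arrG IsMinBisection)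
open Pool.Agent.MPa9445a.SN (rb)

open scoped Classical in
/-- One program which outputs a minimum bisection of every graph for every array of random bits, in expected time
`C (φ + ε) ^ n`, where `φ` is the golden ratio; all but a fraction `2 ^ (- n ^ 2)` of the arrays of random bits are such
that it runs in time `C (φ + ε) ^ n` on every graph. -/
theorem result (ε : ℝ) (hε : 0 < ε) :
    ∃ (e : Ex [.int, .arr, .arr] .arr) (K : ℕ) (C : ℝ),
      (∀ n : ℕ, Even n → ∀ (G : SimpleGraph (Fin n)) (ρ : Fin ((n + 2) ^ K) → Bool),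
        IsMinBisection G (univ.filter fun v : Fin n =>
          nth (e.run ((n : ℤ), arrG G, rb ρ, ())) (v : ℕ) = 1)) ∧
      (∀ τ : ℝ, 2 ≤ τ → ∀ (n : ℕ) (G : SimpleGraph (Fin n)),
        (∑ ρ : Fin ((n + 2) ^ K) → Bool, e.time τ ((n : ℤ), arrG G, rb ρ, ())) / 2 ^ (n + 2) ^ K ≤
          C * (Real.goldenRatio + ε) ^ n) ∧
      (∀ n : ℕ, (univ.filter fun ρ : Fin ((n + 2) ^ K) → Bool =>
        ¬ ∀ (G : SimpleGraph (Fin n)) (τ : ℝ), 2 ≤ τ →
          e.time τ ((n : ℤ), arrG G, rb ρ, ()) ≤ C * (Real.goldenRatio + ε) ^ n).card * 2 ^ n ^ 2 ≤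
            2 ^ (n + 2) ^ K) ∧
      ∀ n : ℕ, 0 < n → ∃ ρ : Fin ((n + 2) ^ K) → Bool, ∀ (G : SimpleGraph (Fin n)) (τ : ℝ), 2 ≤ τ →
        e.time τ ((n : ℤ), arrG G, rb ρ, ()) ≤ C * (Real.goldenRatio + ε) ^ n := by
  have hφ : 0 < Real.goldenRatio := Real.goldenRatio_pos
  have hx : 0 < Real.goldenRatio + ε := by positivity
  have hc : Real.logb 2 Real.goldenRatio < Real.logb 2 (Real.goldenRatio + ε) :=
    Real.logb_lt_logb (by norm_num) hφ (by linarith)
  have hpow : ∀ n : ℕ, (2 : ℝ) ^ (Real.logb 2 (Real.goldenRatio + ε) * n) =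
      (Real.goldenRatio + ε) ^ n := by
    intro n
    rw [Real.rpow_mul (by norm_num), Real.rpow_logb (by norm_num) (by norm_num) hx,
      Real.rpow_natCast]
  obtain ⟨e, K, C, h1, h2, h3⟩ := Pool.Agent.MPa9445a.GL.main_thm hc
  simp only [hpow] at h2 h3
  have h4 : ∀ n : ℕ, (univ.filter fun ρ : Fin ((n + 2) ^ K) → Bool =>
        ¬ ∀ (G : SimpleGraph (Fin n)) (τ : ℝ), 2 ≤ τ →
          e.time τ ((n : ℤ), arrG G, rb ρ, ()) ≤ C * (Real.goldenRatio + ε) ^ n).card * 2 ^ n ^ 2 ≤
            2 ^ (n + 2) ^ K := by
    intro n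
    simp only [Ex.time_eq]
    exact h2 n
  refine ⟨e, K, C, fun n hn G ρ => ?_, fun τ hτ n G => ?_, h4, fun n hn => ?_⟩
  · rw [Ex.run_eq]
    exact h1 n hn G ρ
  · rw [div_le_iff₀ (by positivity)]
    simp only [Ex.time_eq]
    exact h3 n G τ hτ
  · by_contra hne
    push Not at hne
    have h5 := h4 n
    have h6 : (univ.filter fun ρ : Fin ((n + 2) ^ K) → Bool =>
        ¬ ∀ (G : SimpleGraph (Fin n)) (τ : ℝ), 2 ≤ τ →
          e.time τ ((n : ℤ), arrG G, rb ρ, ()) ≤ C * (Real.goldenRatio + ε) ^ n) = univ := by
      refine Finset.filter_true_of_mem fun ρ _ => ?_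
      push Not
      exact hne ρ
    rw [h6, Finset.card_univ, Fintype.card_fun, Fintype.card_bool, Fintype.card_fin] at h5
    have h7 : 2 ≤ 2 ^ (n ^ 2) := by
      calc 2 = 2 ^ 1 := rfl
        _ ≤ 2 ^ (n ^ 2) := Nat.pow_le_pow_right (by norm_num) (Nat.one_le_iff_ne_zero.2 (by positivity))
    have h8 : 0 < 2 ^ (n + 2) ^ K := by positivity
    nlinarith

end Pool.Agent.Results.MP_a9445a_lc.GoldenLasVegas
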