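import Pool.Agent.Lib.MP_a9445a_lc.SP.Fin
import Pool.Agent.Lib.MP_a9445a_lc.SP.Cor
import Pool.Agent.Lib.MP_a9445a_lc.BE.Lang2

/-!
# Faster exact bisection of sparse graphs and of graphs of large energy or discrepancy

For every `r > 0` there are `δ, c > 0`, `M` and a program `e` (of the functional language of
`BE/Lang.lean`, meaning `Ex.run` and logarithmic cost `Ex.time` in `BE/Lang2.lean`, a product of two `k × k` matrices is charged `k ^ τ`) which, for every
`τ ≥ 2`, runs in time `O (2 ^ ((τ / 3 - δ) n))` on all graphs with `n` vertices, and which, for even `n`,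
outputs a minimum bisection of
* every graph of average degree at most `1 / r`;
* every graph with at most `c n ^ (5 / 3)` edges whose maximum degree is at most `1 / r` times the average degree (for
  instance every regular graph with at most `c n ^ (5 / 3)` edges);
* every graph which, after deletion of some set `H` of at most `n / M` vertices, has at most `c n ^ (5 / 3)` edges of which no `r n`
  vertices cover more than the fraction `1 - r`;
* every graph whose complement has this property and few triangles;
* every graph which, after deletion of such a set, has energy or robust positive discrepancy at least `r √(2 m n)`, or whose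
  complement has (for the complement the quadratic form is minus the adjacency matrix);
* every graph which is edgeless or complete after deletion of at most `n / 60` vertices.
-/

set_option autoImplicit false

open Finset

namespace Pool.Agent.Results.MP_a9445a_lc.SparseGraphs

open Pool.Agent.MPa9445a.BE

/-- One program finds a minimum bisection, in time `O (2 ^ ((τ / 3 - δ) n))`, of all graphs of average
degree at most `1 / r`, of all graphs with at most `c n ^ (5 / 3)` edges and maximum degree at most `1 / r` times the average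
degree, and of all graphs of the class `Tame r c M`. The time bound holds for all graphs. -/
theorem result (r : ℝ) (hr : 0 < r) :
    ∃ (δ c : ℝ) (M : ℕ) (e : Ex [.int, .arr] .arr), 0 < δ ∧ 0 < c ∧ 0 < M ∧
      (∀ τ : ℝ, 2 ≤ τ → ∃ C : ℝ, ∀ (n : ℕ) (G : SimpleGraph (Fin n)),
        e.time τ ((n : ℤ), arrG G, ()) ≤ C * 2 ^ ((τ / 3 - δ) * n)) ∧
      ∀ n : ℕ, Even n → ∀ G : SimpleGraph (Fin n),
        (2 * (ne G : ℝ) ≤ 1 / r * n ∨ (Sparse c G ∧ Flat r G) ∨ Tame r c M G) →
          IsMinBisection G (univ.filter fun v : Fin n =>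
            nth (e.run ((n : ℤ), arrG G, ())) (v : ℕ) = 1) := by
  have h60 : 0 < 1 / (60 * Real.sqrt (1 / r + 1)) := by positivity
  obtain ⟨a, ha⟩ : ∃ a : ℝ, a = min r 1 := ⟨_, rfl⟩
  have ha0 : 0 < a := by rw [ha]; exact lt_min hr one_pos
  have har : a ≤ r := by rw [ha]; exact min_le_left _ _
  have ha1 : a ≤ 1 := by rw [ha]; exact min_le_right _ _
  obtain ⟨r₁, hr₁⟩ : ∃ r₁ : ℝ, r₁ = a / 4 := ⟨_, rfl⟩
  have h0 : 0 < r₁ := by rw [hr₁]; positivity
  have h1 : r₁ ≤ 1 := by rw [hr₁]; linarith
  have h2 : r₁ ≤ r := by rw [hr₁]; linarith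
  have hs0 : 0 < min (r₁ ^ 2 / 200) (1 / (60 * Real.sqrt (1 / r + 1))) :=
    lt_min (by positivity) h60
  obtain ⟨δ, M, e, hδ, hM, hc, hE⟩ := main_thmR hs0
  have hc0 : 0 < r₁ ^ 3 / 200 := by positivity
  refine ⟨δ, r₁ ^ 3 / 200, M, e, hδ, hc0, hM, fun τ hτ => ?_, fun n hn G hG => ?_⟩
  · obtain ⟨C, hC⟩ := hc τ hτ
    exact ⟨C, fun n G => by rw [Ex.time_eq]; exact hC n G⟩
  rw [Ex.run_eq]
  refine hE n hn G ?_
  rcases hG with hG | ⟨hS, hF⟩ | hG
  · exact classR_of_degree (by positivity) M G hG (min_le_right _ _)
  · have hF' : Flat a G := by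
      intro v
      refine le_trans ?_ (hF v)
      have h3 : 0 ≤ ∑ u, adjR G v u := Finset.sum_nonneg fun u _ => by
        unfold adjR
        split_ifs <;> norm_num
      exact mul_le_mul_of_nonneg_right (mul_le_mul_of_nonneg_right har (Nat.cast_nonneg n)) h3
    have hSp := spread_of_flat ha0 ha1 hF'
    rw [← hr₁] at hSp
    have he : subG G ∅ = G := by
      ext u v
      exact ⟨fun h => h.1, fun h => ⟨h, notMem_empty _, notMem_empty _⟩⟩
    have hT : Tame r₁ (r₁ ^ 3 / 200) M G := by
      refine ⟨∅, Or.inl ⟨by simp, Or.inr (Or.inl ?_)⟩⟩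
      rw [he]
      exact ⟨hS, hSp⟩
    exact classR_of_tame h0 h1 le_rfl hc0 le_rfl (min_le_left _ _) hT
  · exact classR_of_tame h0 h1 h2 hc0 le_rfl (min_le_left _ _) hG

end Pool.Agent.Results.MP_a9445a_lc.SparseGraphs
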